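import Pool.Agent.N162.HN.Stm2
import Pool.Agent.N543.HN.Main

/-!
# Project HO (helper162), part MAINO (helper163): the combinatorial part with coefficients in `Ω`

Port of helper543's files `Pool/Agent/N543/HN/{Base, Comb, Main}.lean` (after helper162) from cycles with
integral coefficients to cycles with coefficients in `Ω`.
-/

set_option autoImplicit false
set_option linter.unusedSectionVars false

open MvPolynomial

namespace Pool.Agent.N163.HO

open Pool.Agent.N162.HN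
open Pool.Agent.N162.CV (PRel MonicY StA3 StBEZ td_prod td_dvd relPrime_of_not_dvd one_le_td mulH)
open Pool.Agent.N162.CW (StA2)
open Pool.Agent.N543.HN (exists_formA cyl td_cyl eval_cyl tl_inj cons_tl fpq fpq_ne fpq_eval
  prj_sub prj_eval_prod card_two le_of_mem)

section

variable {n : ℕ} {Ω : Type} [Field Ω]

/-- all forms of degree `m` have weighted sum zero -/
def RelO (m : ℕ) (κ : (Fin (n + 2) → Ω) → Ω) (w : (Fin (n + 2) → Ω) →₀ Ω) : Prop :=
  ∀ P : MvPolynomial (Fin (n + 2)) Ω, P.IsHomogeneous m →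
    ∑ p ∈ w.support, w p * (κ p * eval p P) = 0

theorem lam_eq (κ : (Fin (n + 2) → Ω) → Ω) (P : MvPolynomial (Fin (n + 2)) Ω)
    (w : (Fin (n + 2) → Ω) →₀ Ω) : ∑ p ∈ w.support, w p * (κ p * eval p P) =
      Finsupp.linearCombination Ω (fun p => κ p * eval p P) w := by
  rw [Finsupp.linearCombination_apply, Finsupp.sum]
  rfl

theorem relO_sub {m : ℕ} {κ : (Fin (n + 2) → Ω) → Ω} {c c' : (Fin (n + 2) → Ω) →₀ Ω}
    (h : RelO m κ c) (h' : RelO m κ c') : RelO m κ (c - c') := by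
  intro P hP
  rw [lam_eq, map_sub, ← lam_eq, ← lam_eq, h P hP, h' P hP, sub_zero]

theorem relO_sum {m : ℕ} {κ : (Fin (n + 2) → Ω) → Ω} {ι : Type} (J : Finset ι)
    (c : ι → (Fin (n + 2) → Ω) →₀ Ω) (h : ∀ i, RelO m κ (c i)) : RelO m κ (∑ i ∈ J, c i) := by
  intro P hP
  rw [lam_eq, map_sum]
  exact Finset.sum_eq_zero fun i _ => by rw [← lam_eq]; exact h i P hP

theorem relO_smul {m : ℕ} {κ : (Fin (n + 2) → Ω) → Ω} {c : (Fin (n + 2) → Ω) →₀ Ω}
    (h : RelO m κ c) (a : Ω) : RelO m κ (a • c) := by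
  intro P hP
  rw [lam_eq, map_smul, ← lam_eq, h P hP, smul_zero]

/-- integral cycles -/
noncomputable def toO (c : (Fin (n + 2) → Ω) →₀ ℤ) : (Fin (n + 2) → Ω) →₀ Ω :=
  c.mapRange (Int.cast : ℤ → Ω) Int.cast_zero

theorem toO_apply (c : (Fin (n + 2) → Ω) →₀ ℤ) (p : Fin (n + 2) → Ω) : toO c p = (c p : Ω) := rfl

theorem relO_cast {m : ℕ} {κ : (Fin (n + 2) → Ω) → Ω} {c : (Fin (n + 2) → Ω) →₀ ℤ}
    (h : Rel m κ c) : RelO m κ (toO c) := by
  intro P hP
  rw [lam_eq, Finsupp.linearCombination_apply]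
  unfold toO
  rw [Finsupp.sum_mapRange_index (by intro a; rw [zero_smul])]
  exact h P hP

theorem toSpace {m : ℕ} {κ : (Fin (n + 2) → Ω) → Ω} {c : (Fin (n + 2) → Ω) →₀ Ω}
    (h : RelO m κ c) (h0 : ∀ p, c p ≠ 0 → p 0 = 1) (R : MvPolynomial (Fin (n + 1)) Ω) {k : ℕ}
    (hk : R.totalDegree + k ≤ m) (P : MvPolynomial (Fin (n + 1)) Ω) (hP : P.totalDegree ≤ k) :
    ∑ p ∈ c.support, c p * κ p * eval (Fin.tail p) R * eval (Fin.tail p) P = 0 := by
  obtain ⟨Q, hQ, hQe⟩ := exists_formA m (R * P) ((totalDegree_mul _ _).trans (by omega))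
  rw [← h Q hQ]
  refine Finset.sum_congr rfl fun p hp => ?_
  rw [hQe p (h0 p (Finsupp.mem_support_iff.1 hp)), map_mul]
  ring

theorem toPlane {m : ℕ} {κ : (Fin (n + 2) → Ω) → Ω} {c : (Fin (n + 2) → Ω) →₀ Ω}
    (h : RelO m κ c) (h0 : ∀ p, c p ≠ 0 → p 0 = 1) (t : Ω) :
    PRel m c.support (pr t) (fun p => c p * κ p) := by
  intro P hP
  obtain ⟨Q, hQ, hQe⟩ := exists_formA m (cyl n t P) ((td_cyl t P).trans hP)
  rw [← h Q hQ]
  refine Finset.sum_congr rfl fun p hp => ?_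
  rw [hQe p (h0 p (Finsupp.mem_support_iff.1 hp)), eval_cyl, mul_assoc]

/-- the points of `c` and of the `cyc i` -/
noncomputable def GamO {r : ℕ} (c : (Fin (n + 2) → Ω) →₀ Ω)
    (cyc : Fin r → (Fin (n + 2) → Ω) →₀ ℤ) : Finset (Fin (n + 2) → Ω) :=
  by classical exact c.support ∪ Finset.univ.biUnion fun i => (cyc i).support

theorem mem_GamO {r : ℕ} {c : (Fin (n + 2) → Ω) →₀ Ω} {cyc : Fin r → (Fin (n + 2) → Ω) →₀ ℤ}
    {p : Fin (n + 2) → Ω} : p ∈ GamO c cyc ↔ c p ≠ 0 ∨ ∃ i, cyc i p ≠ 0 := by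
  classical
  unfold GamO
  simp

variable {r : ℕ} {κ : (Fin (n + 2) → Ω) → Ω} {m N d : ℕ} {c : (Fin (n + 2) → Ω) →₀ Ω}
  {g : Fin r → ℕ}
  {on : Fin r → (Fin (n + 2) → Ω) → Prop} {cyc : Fin r → (Fin (n + 2) → Ω) →₀ ℤ}
  {A : Fin n → MvPolynomial (Fin 2) Ω} {t : Ω} {J : Finset (Fin r)}
  {G : Fin r → MvPolynomial (Fin 2) Ω} {Γ : Finset (Fin (n + 2) → Ω)}

theorem conf_c0 (hC : ConfO r κ m N d c g on cyc A) :
    ∀ p, c p ≠ 0 → p ∈ GamO c cyc ∧ p 0 = 1 ∧ κ p ≠ 0 := fun p h =>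
  ⟨mem_GamO.2 (Or.inl h), (hC.hc0 p h).1, (hC.hc0 p h).2⟩

theorem conf_cy0 (hC : ConfO r κ m N d c g on cyc A) (i : Fin r) :
    ∀ p, cyc i p ≠ 0 → p ∈ GamO c cyc ∧ p 0 = 1 ∧ κ p ≠ 0 := fun p h =>
  ⟨mem_GamO.2 (Or.inr ⟨i, h⟩), (hC.cyc0 i p h).1, (hC.cyc0 i p h).2.1⟩

theorem conf_gam0 (hC : ConfO r κ m N d c g on cyc A) : ∀ p ∈ GamO c cyc, p 0 = 1 := by
  intro p hp
  rcases mem_GamO.1 hp with h | ⟨i, h⟩
  · exact (hC.hc0 p h).1
  · exact (hC.cyc0 i p h).1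

/-- good projections -/
theorem exists_prj [CharZero Ω] (hC : ConfO r κ m N d c g on cyc A) :
    ∃ (t : Ω) (G : Fin r → MvPolynomial (Fin 2) Ω),
      Prj (GamO c cyc) g on A t G ∧ Set.InjOn (pr (n := n) t) (GamO c cyc) := by
  classical
  have hG0 := conf_gam0 hC
  obtain ⟨bad, hbad⟩ := hC.proj (GamO c cyc) hG0
  obtain ⟨bad2, hbad2⟩ : ∃ bad2 : Finset Ω, bad2 = ((GamO c cyc) ×ˢ (GamO c cyc)).biUnion
      fun q => (fpq q.1 q.2).roots.toFinset := ⟨_, rfl⟩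
  obtain ⟨t, ht⟩ : ∃ t : Ω, t ∉ bad ∪ bad2 := Infinite.exists_notMem_finset _
  rw [Finset.notMem_union] at ht
  obtain ⟨G, hG⟩ := hbad _ ht.1
  refine ⟨t, G, hG, ?_⟩
  intro p hp q hq hpq
  by_contra hne
  apply ht.2
  rw [hbad2]
  refine Finset.mem_biUnion.2 ⟨(p, q), Finset.mem_product.2 ⟨hp, hq⟩, ?_⟩
  rw [Multiset.mem_toFinset, Polynomial.mem_roots (fpq_ne ((hG0 p hp).trans (hG0 q hq).symm)
    (congrFun hpq 0) hne)]
  exact fpq_eval p q t hpq

/-- **Step I.** The points lie on curves of total degree at most `N`. -/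
theorem stepI (hA2 : StA2) (hSP : StSP) [IsAlgClosed Ω] [CharZero Ω]
    (hC : ConfO r κ m N d c g on cyc A) (hp : Prj (GamO c cyc) g on A t G)
    (hinj : Set.InjOn (pr (n := n) t) (GamO c cyc)) :
    ∃ I : Finset (Fin r), ∑ i ∈ I, g i ≤ N ∧ ∀ p, c p ≠ 0 → ∃ i ∈ I, on i p := by
  classical
  have hm := hC.hm
  obtain ⟨T, hT0, hTd, hT⟩ := hA2 Ω (Fin (n + 2) → Ω) c.support (pr t)
    (fun p => c p * κ p) m N
    hm hC.hcard
    (fun p h q h' => hinj (conf_c0 hC p (Finsupp.mem_support_iff.1 h)).1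
      (conf_c0 hC q (Finsupp.mem_support_iff.1 h')).1)
    (fun p h => mul_ne_zero (Finsupp.mem_support_iff.1 h)
      (hC.hc0 p (Finsupp.mem_support_iff.1 h)).2)
    (toPlane hC.hcr (fun p h => (hC.hc0 p h).1) t)
  obtain ⟨I, hI⟩ : ∃ I : Finset (Fin r), I = Finset.univ.filter fun i => G i ∣ T := ⟨_, rfl⟩
  have hImem : ∀ i, i ∈ I ↔ G i ∣ T := by
    intro i
    rw [hI, Finset.mem_filter]
    simp
  obtain ⟨H, hH⟩ : ∃ H, H = ∏ i ∈ I, G i := ⟨_, rfl⟩
  have hHdvd : H ∣ T := by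
    rw [hH]
    refine Finset.prod_dvd_of_isRelPrime ?_ fun i hi => (hImem i).1 hi
    intro i _ j _ hij
    refine relPrime_of_not_dvd (hp.irr i) fun h => ?_
    exact hp.assoc i j hij ((hp.irr i).associated_of_dvd (hp.irr j) h)
  have hHd : H.totalDegree = ∑ i ∈ I, g i := by
    rw [hH, td_prod _ _ fun i _ => (hp.irr i).ne_zero]
    exact Finset.sum_congr rfl fun i _ => hp.deg i
  obtain ⟨Q0, hQ0⟩ := hHdvd
  have hH0 : H ≠ 0 := by
    rintro rfl
    exact hT0 (by rw [hQ0, zero_mul])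
  have hQ00 : Q0 ≠ 0 := by
    rintro rfl
    exact hT0 (by rw [hQ0, mul_zero])
  have hTdeg : H.totalDegree + Q0.totalDegree ≤ N := by
    rw [← totalDegree_mul_of_isDomain hH0 hQ00, ← hQ0]
    exact hTd
  refine ⟨I, by omega, ?_⟩
  by_contra hcon
  push Not at hcon
  obtain ⟨p0, hp0, hp1⟩ := hcon
  have hHev : ∀ p ∈ GamO c cyc, eval (pr t p) H = 0 ↔ ∃ i ∈ I, on i p := by
    intro p hpG
    rw [hH, map_prod, Finset.prod_eq_zero_iff]
    constructor
    · rintro ⟨i, hi, h⟩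
      exact ⟨i, hi, (hp.iff i p hpG).1 h⟩
    · rintro ⟨i, hi, h⟩
      exact ⟨i, hi, (hp.iff i p hpG).2 h⟩
  obtain ⟨Y, hY⟩ : ∃ Y, Y = c.support.filter fun p => eval (pr t p) H ≠ 0 := ⟨_, rfl⟩
  have hYm : ∀ p, p ∈ Y ↔ c p ≠ 0 ∧ eval (pr t p) H ≠ 0 := by
    intro p
    rw [hY, Finset.mem_filter, Finsupp.mem_support_iff]
  have hp0Y : p0 ∈ Y := by
    rw [hYm]
    refine ⟨hp0, fun h => ?_⟩
    obtain ⟨i, hi, h1⟩ := (hHev p0 (conf_c0 hC p0 hp0).1).1 h
    exact hp1 i hi h1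
  -- minimal equation of the other points
  obtain ⟨Q, hQ1, hQ2, hQ3, hQ4⟩ : ∃ Q : MvPolynomial (Fin 2) Ω, Q ≠ 0 ∧ Q ∣ Q0 ∧
      (∀ p ∈ Y, eval (pr t p) Q = 0) ∧ ∀ Q', Q' ≠ 0 → Q' ∣ Q0 →
      (∀ p ∈ Y, eval (pr t p) Q' = 0) → Q.totalDegree ≤ Q'.totalDegree := by
    have hex : ∃ (n : ℕ) (Q : MvPolynomial (Fin 2) Ω), Q.totalDegree = n ∧ Q ≠ 0 ∧ Q ∣ Q0 ∧
        ∀ p ∈ Y, eval (pr t p) Q = 0 := by
      refine ⟨_, Q0, rfl, hQ00, dvd_rfl, fun p hpY => ?_⟩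
      rw [hYm] at hpY
      have h1 := hT p (Finsupp.mem_support_iff.2 hpY.1)
      rw [hQ0, map_mul] at h1
      exact (mul_eq_zero.1 h1).resolve_left hpY.2
    obtain ⟨Q, h1, h2, h3, h4⟩ := Nat.find_spec hex
    refine ⟨Q, h2, h3, h4, fun Q' h5 h6 h7 => ?_⟩
    rw [h1]
    exact Nat.find_min' hex ⟨Q', rfl, h5, h6, h7⟩
  have hQG : ∀ i, ¬ G i ∣ Q := by
    intro i hi
    obtain ⟨R, hR⟩ := hi
    have hR0 : R ≠ 0 := by
      rintro rfl
      exact hQ1 (by rw [hR, mul_zero])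
    have hiI : i ∈ I := by
      rw [hImem]
      exact (Dvd.intro R hR.symm).trans (hQ2.trans (Dvd.intro_left H hQ0.symm))
    have h1 := hQ4 R hR0 ((Dvd.intro_left (G i) hR.symm).trans hQ2) (fun p hpY => by
      have h2 := hQ3 p hpY
      rw [hR, map_mul] at h2
      refine (mul_eq_zero.1 h2).resolve_left fun h3 => ?_
      rw [hYm] at hpY
      exact hpY.2 ((hHev p (conf_c0 hC p hpY.1).1).2 ⟨i, hiI, (hp.iff i p (conf_c0 hC p hpY.1).1).1 h3⟩))
    have h2 : Q.totalDegree = (G i).totalDegree + R.totalDegree := by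
      rw [hR, totalDegree_mul_of_isDomain (hp.irr i).ne_zero hR0]
    have h3 := one_le_td (hp.irr i)
    omega
  have hQd : H.totalDegree + Q.totalDegree ≤ N :=
    (Nat.add_le_add_left (td_dvd hQ2 hQ00) _).trans hTdeg
  -- the points in space
  have hY1 : ∀ p ∈ Y, p 0 = 1 := fun p hpY => (hC.hc0 p ((hYm p).1 hpY).1).1
  have h1 := hSP n Ω (Y.image Fin.tail) (fun q => c (Fin.cons (1 : Ω) q : Fin (n + 2) → Ω) *
      κ (Fin.cons (1 : Ω) q : Fin (n + 2) → Ω) *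
    eval q (cyl n t H)) (m - H.totalDegree) A (cyl n t Q)
    (Finset.Nonempty.image ⟨p0, hp0Y⟩ _) (fun q hq => by
      obtain ⟨p, hpY, rfl⟩ := Finset.mem_image.1 hq
      rw [cons_tl (hY1 p hpY), eval_cyl]
      have h2 := (hYm p).1 hpY
      exact mul_ne_zero (mul_ne_zero (h2.1) (hC.hc0 p h2.1).2) h2.2)
    (fun P hP => by
      rw [Finset.sum_image fun p hp q hq h => tl_inj (hY1 p hp) (hY1 q hq) h]
      have h2 := toSpace hC.hcr (fun p h => (hC.hc0 p h).1) (cyl n t H)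
        (k := m - H.totalDegree) (by
          have := td_cyl (n := n) t H
          omega) P hP
      rw [← h2]
      have h3 : Y ⊆ c.support := by
        rw [hY]
        exact Finset.filter_subset _ _
      rw [← Finset.sum_subset h3]
      · refine Finset.sum_congr rfl fun p hpY => ?_
        rw [cons_tl (hY1 p hpY)]
      · intro p hpc hpY
        rw [hYm] at hpY
        push Not at hpY
        rw [eval_cyl, hpY (Finsupp.mem_support_iff.1 hpc), mul_zero, zero_mul])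
    hC.hA hC.hA1 (fun q hq => by
      obtain ⟨p, hpY, rfl⟩ := Finset.mem_image.1 hq
      have h2 := (hYm p).1 hpY
      refine ⟨fun l => ?_, ?_⟩
      · exact hC.hAc p h2.1 l
      · rw [eval_cyl]
        exact hQ3 p hpY)
    (by
      refine ((hp.fin Q hQG).image Fin.tail).subset ?_
      rintro q ⟨h2, h4⟩
      have h5 : Fin.tail (Fin.cons (1 : Ω) q : Fin (n + 2) → Ω) = q := Fin.tail_cons _ _
      refine ⟨Fin.cons (1 : Ω) q, ⟨rfl, fun l => ?_, ?_⟩, h5⟩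
      · exact h2 l
      · rw [← eval_cyl, h5]
        exact h4)
  have h2 := td_cyl (n := n) t Q
  have h3 : ∑ l, (A l).totalDegree ≤ n * N := by
    refine (Finset.sum_le_card_nsmul _ _ N fun l _ => hC.hAN l).trans ?_
    simp
  have h4 := hC.hN
  have h5 := hC.hd
  have h6 : (n + 1) * N = n * N + N := by ring
  omega

/-- minimal subsets of curves -/
theorem exists_min (I : Finset (Fin r)) (w : (Fin (n + 2) → Ω) →₀ Ω)
    (hI : ∀ p, w p ≠ 0 → ∃ i ∈ I, on i p) :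
    ∃ J ⊆ I, (∀ p, w p ≠ 0 → ∃ i ∈ J, on i p) ∧
      ∀ j ∈ J, ∃ p, w p ≠ 0 ∧ ∀ i ∈ J, i ≠ j → ¬ on i p := by
  classical
  obtain ⟨J, hJ, hJmin⟩ := Finset.exists_min_image (I.powerset.filter
      fun J => ∀ p, w p ≠ 0 → ∃ i ∈ J, on i p) Finset.card ⟨I, by
        rw [Finset.mem_filter]
        exact ⟨Finset.mem_powerset_self I, hI⟩⟩
  rw [Finset.mem_filter, Finset.mem_powerset] at hJ
  refine ⟨J, hJ.1, hJ.2, ?_⟩
  intro j hj
  by_contra hcon
  push Not at hcon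
  have h1 := hJmin (J.erase j) (by
    rw [Finset.mem_filter, Finset.mem_powerset]
    refine ⟨(Finset.erase_subset _ _).trans hJ.1, ?_⟩
    intro p hp
    obtain ⟨i, hi, hij, h⟩ := hcon p hp
    exact ⟨i, Finset.mem_erase.2 ⟨hij, hi⟩, h⟩)
  rw [Finset.card_erase_of_mem hj] at h1
  have h2 := Finset.card_pos.2 ⟨j, hj⟩
  omega

open Classical in
/-- the points of `w` on the curve `j` only -/
noncomputable def only (J : Finset (Fin r)) (on : Fin r → (Fin (n + 2) → Ω) → Prop)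
    (w : (Fin (n + 2) → Ω) →₀ Ω) (j : Fin r) : Finset (Fin (n + 2) → Ω) :=
  w.support.filter fun p => ∀ i ∈ J, i ≠ j → ¬ on i p

theorem mem_only {w : (Fin (n + 2) → Ω) →₀ Ω} {j : Fin r} {p : Fin (n + 2) → Ω} :
    p ∈ only J on w j ↔ w p ≠ 0 ∧ ∀ i ∈ J, i ≠ j → ¬ on i p := by
  classical
  unfold only
  rw [Finset.mem_filter, Finsupp.mem_support_iff]

/-- the relation on one curve -/
theorem prj_rel_only (hp : Prj Γ g on A t G) {w : (Fin (n + 2) → Ω) →₀ Ω}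
    (hw : RelO m κ w) (hw0 : ∀ p, w p ≠ 0 → p ∈ Γ ∧ p 0 = 1 ∧ κ p ≠ 0)
    {k : ℕ} {j : Fin r} (hk : (∏ i ∈ J.erase j, G i).totalDegree + k ≤ m) :
    PRel k (only J on w j) (pr t)
      (fun p => w p * κ p * eval (pr t p) (∏ i ∈ J.erase j, G i)) := by
  refine mulH (toPlane hw (fun p h => (hw0 p h).2.1) t) _ hk (fun p h => ?_) fun p h h' => ?_
  · rw [mem_only] at h
    exact Finsupp.mem_support_iff.2 h.1
  · rw [Finsupp.mem_support_iff] at h
    rw [mem_only] at h'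
    push Not at h'
    obtain ⟨i, hi, hij, h1⟩ := h' h
    exact (prj_eval_prod hp (hw0 p h).1).2 ⟨i, hi, hij, h1⟩

theorem prj_weight (hp : Prj Γ g on A t G) [CharZero Ω] {w : (Fin (n + 2) → Ω) →₀ Ω}
    (hw0 : ∀ p, w p ≠ 0 → p ∈ Γ ∧ p 0 = 1 ∧ κ p ≠ 0) {j : Fin r} {p : Fin (n + 2) → Ω}
    (h : p ∈ only J on w j) : w p * κ p * eval (pr t p) (∏ i ∈ J.erase j, G i) ≠ 0 := by
  rw [mem_only] at h
  refine mul_ne_zero (mul_ne_zero (h.1) (hw0 p h.1).2.2) fun h1 => ?_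
  obtain ⟨i, hi, hij, h2⟩ := (prj_eval_prod hp (hw0 p h.1).1).1 h1
  exact h.2 i hi hij h2

theorem inj_only (hinj : Set.InjOn (pr (n := n) t) (Γ : Set (Fin (n + 2) → Ω)))
    {w : (Fin (n + 2) → Ω) →₀ Ω}
    (hw0 : ∀ p, w p ≠ 0 → p ∈ Γ ∧ p 0 = 1 ∧ κ p ≠ 0) {j : Fin r} :
    Set.InjOn (pr (n := n) t) (only J on w j) := by
  intro p h q h'
  rw [Finset.mem_coe, mem_only] at h h'
  exact hinj (hw0 p h.1).1 (hw0 q h'.1).1

/-- number of points of a cycle on one curve -/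
theorem prj_card_only (hA3 : StA3) [IsAlgClosed Ω] [CharZero Ω] (hn : 1 ≤ n)
    (hd : m + n + 2 = d) (hm : 7 * N + 4 ≤ m) (hp : Prj Γ g on A t G)
    (hinj : Set.InjOn (pr (n := n) t) (Γ : Set (Fin (n + 2) → Ω))) (he : ∑ i ∈ J, g i ≤ N)
    {w : (Fin (n + 2) → Ω) →₀ Ω} (hw : RelO m κ w)
    (hw0 : ∀ p, w p ≠ 0 → p ∈ Γ ∧ p 0 = 1 ∧ κ p ≠ 0) {j : Fin r} (hj : j ∈ J)
    (hon : ∀ p ∈ only J on w j, on j p) (hne : (only J on w j).Nonempty) :
    g j * d ≤ (only J on w j).card + g j * (n - 1 + ∑ i ∈ J, g i) := by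
  have hsub := prj_sub hp j hj
  obtain ⟨h, hh⟩ : ∃ h, h = (∏ i ∈ J.erase j, G i).totalDegree := ⟨_, rfl⟩
  rw [← hh] at hsub
  have hhm : h ≤ m := by omega
  have h1 := hA3 Ω (Fin (n + 2) → Ω) (only J on w j) (pr t) _ (m - h) (G j) hne
    (inj_only hinj hw0) (fun p h => prj_weight hp hw0 h)
    (prj_rel_only hp hw hw0 (by rw [← hh]; omega)) (hp.irr j) (fun p hpp => by
      have h2 := hon p hpp
      rw [mem_only] at hpp
      exact (hp.iff j p (hw0 p hpp.1).1).2 h2) (by rw [hp.deg]; omega)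
  rw [hp.deg] at h1
  obtain ⟨k, hk⟩ : ∃ k, m = h + k := ⟨m - h, by omega⟩
  have h2 : m - h = k := by omega
  rw [h2] at h1
  obtain ⟨n', hn'⟩ : ∃ n', n = n' + 1 := ⟨n - 1, by omega⟩
  have h3 : d = h + k + n' + 3 := by omega
  have h4 : ∑ i ∈ J, g i = h + g j := by omega
  have h5 : n - 1 = n' := by omega
  rw [h3, h4, h5]
  nlinarith

/-- points of `w` on the curve `j` only are on `j` -/
theorem on_only {w : (Fin (n + 2) → Ω) →₀ Ω} (hon : ∀ p, w p ≠ 0 → ∃ i ∈ J, on i p)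
    (j : Fin r) : ∀ p ∈ only J on w j, on j p := by
  intro p h
  rw [mem_only] at h
  obtain ⟨i, hi, hi'⟩ := hon p h.1
  have hij : i = j := by
    by_contra hij
    exact h.2 i hi hij hi'
  rwa [← hij]

open Classical in
/-- a value which is taken often -/
theorem of_value (hC : ConfO r κ m N d c g on cyc A)
    (hcov : ∀ p, c p ≠ 0 → ∃ i ∈ J, on i p) {j : Fin r} (hgj : g j ≤ N) {a : Ω}
    (ha2 : g j * (n - 1 + ∑ i ∈ J, g i) < ((only J on c j).filter fun p => c p = a).card) :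
    ∀ B : Finset (Fin (n + 2) → Ω), (∀ p ∈ B, p ∈ GamO c cyc ∧ on j p ∧
      (∀ i ∈ J, i ≠ j → ¬ on i p) ∧ c p ≠ a * (cyc j p : Ω)) →
      B.card + g j * (n - 1 + ∑ i ∈ J, g i) < g j * d := by
  classical
  intro B hB
  have honj := on_only hcov j
  obtain ⟨Y, hY⟩ : ∃ Y, Y = (only J on c j).filter fun p => c p = a := ⟨_, rfl⟩
  rw [← hY] at ha2
  have h5 := hC.cycdeg j (B ∪ Y)
  have h6 : ∀ p ∈ B ∪ Y, (1 : ℤ) + (if p ∈ B ∧ p ∈ Y then 1 else 0) ≤ cyc j p := by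
    intro p hpp
    have hnn := hC.cycnn j p
    have hpos : cyc j p ≠ 0 := by
      rcases Finset.mem_union.1 hpp with h | h
      · obtain ⟨h7, h8, h9, h10⟩ := hB p h
        intro h11
        rw [h11, Int.cast_zero, mul_zero] at h10
        exact hC.hcy j p hgj h10 h8 h11
      · rw [hY, Finset.mem_filter] at h
        exact hC.hcy j p hgj (mem_only.1 h.1).1 (honj p h.1)
    split_ifs with h
    · obtain ⟨h7, h8, h9, h10⟩ := hB p h.1
      have h11 := h.2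
      rw [hY, Finset.mem_filter] at h11
      have h12 : cyc j p ≠ 1 := by
        intro h12
        rw [h12, Int.cast_one, mul_one] at h10
        exact h10 h11.2
      omega
    · omega
  have h7 := Finset.sum_le_sum h6
  rw [Finset.sum_add_distrib] at h7
  have h8 : ∑ p ∈ B ∪ Y, (if p ∈ B ∧ p ∈ Y then (1 : ℤ) else 0) = (B ∩ Y).card := by
    rw [← Finset.sum_filter, Finset.sum_const, nsmul_eq_mul, mul_one]
    congr 2
    ext p
    simp only [Finset.mem_filter, Finset.mem_union, Finset.mem_inter]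
    tauto
  rw [h8, Finset.sum_const, nsmul_eq_mul, mul_one] at h7
  have h9 := Finset.card_union_add_card_inter B Y
  have h10 : ((B ∪ Y).card : ℤ) + (B ∩ Y).card = B.card + Y.card := by exact_mod_cast h9
  have h11 : (B.card + Y.card : ℤ) ≤ (g j * d : ℕ) := by linarith
  have h12 : B.card + Y.card ≤ g j * d := by exact_mod_cast h11
  omega

open Classical in
/-- **Step II**, few multiplicities. -/
theorem stepIIa (hA3 : StA3) [IsAlgClosed Ω] [CharZero Ω]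
    (hC : ConfO r κ m N d c g on cyc A) (hp : Prj (GamO c cyc) g on A t G)
    (hinj : Set.InjOn (pr (n := n) t) (GamO c cyc)) (he : ∑ i ∈ J, g i ≤ N)
    (hcov : ∀ p, c p ≠ 0 → ∃ i ∈ J, on i p)
    {v : ℕ} (hv : (c.support.image c).card ≤ v)
    (hvN : (v + 1) * (N + n - 1) < d) (j : Fin r) (hj : j ∈ J)
    (hmin : ∃ p, c p ≠ 0 ∧ ∀ i ∈ J, i ≠ j → ¬ on i p) :
    ∃ a : Ω, ∀ B : Finset (Fin (n + 2) → Ω), (∀ p ∈ B, p ∈ GamO c cyc ∧ on j p ∧
      (∀ i ∈ J, i ≠ j → ¬ on i p) ∧ c p ≠ a * (cyc j p : Ω)) →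
      B.card + g j * (n - 1 + ∑ i ∈ J, g i) < g j * d := by
  classical
  obtain ⟨p0, hp0, hp1⟩ := hmin
  have hn := hC.hn
  have hgj : 1 ≤ g j := by
    rw [← hp.deg]
    exact one_le_td (hp.irr j)
  have honj := on_only hcov j
  have h1 := prj_card_only hA3 hC.hn hC.hd hC.hm hp hinj he hC.hcr (conf_c0 hC) hj honj
    ⟨p0, mem_only.2 ⟨hp0, hp1⟩⟩
  have hgN := le_of_mem he hj
  obtain ⟨a, ha, ha2⟩ : ∃ a ∈ c.support.image c,
      g j * (n - 1 + ∑ i ∈ J, g i) < ((only J on c j).filter fun p => c p = a).card := by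
    refine Finset.exists_lt_card_fiber_of_mul_lt_card_of_maps_to (fun p h => ?_) ?_
    · rw [mem_only] at h
      exact Finset.mem_image_of_mem _ (Finsupp.mem_support_iff.2 h.1)
    · obtain ⟨e, hedef⟩ : ∃ e, e = ∑ i ∈ J, g i := ⟨_, rfl⟩
      rw [← hedef] at h1 he ⊢
      have h2 : (c.support.image c).card * (g j * (n - 1 + e)) ≤ v * (g j * (n - 1 + e)) :=
        Nat.mul_le_mul_right _ hv
      have h3 : (v + 1) * (n - 1 + e) < d := by
        refine lt_of_le_of_lt ?_ hvN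
        exact Nat.mul_le_mul_left _ (by omega)
      have h4 : g j * ((v + 1) * (n - 1 + e)) < g j * d :=
        Nat.mul_lt_mul_of_pos_left h3 (by omega)
      have h5 : g j * ((v + 1) * (n - 1 + e)) = v * (g j * (n - 1 + e)) + g j * (n - 1 + e) := by
        ring
      omega
  exact ⟨a, of_value hC hcov hgN ha2⟩

/-- **Step III.** -/
theorem stepIII (hA3 : StA3) (hBEZ : StBEZ) [IsAlgClosed Ω] [CharZero Ω]
    (hC : ConfO r κ m N d c g on cyc A) (hp : Prj (GamO c cyc) g on A t G)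
    (hinj : Set.InjOn (pr (n := n) t) (GamO c cyc)) (he : ∑ i ∈ J, g i ≤ N)
    (hcov : ∀ p, c p ≠ 0 → ∃ i ∈ J, on i p) (a : Fin r → Ω)
    (hII : ∀ j ∈ J, ∀ B : Finset (Fin (n + 2) → Ω), (∀ p ∈ B, p ∈ GamO c cyc ∧ on j p ∧
      (∀ i ∈ J, i ≠ j → ¬ on i p) ∧ c p ≠ a j * (cyc j p : Ω)) →
      B.card + g j * (n - 1 + ∑ i ∈ J, g i) < g j * d) :
    c = ∑ j ∈ J, a j • toO (cyc j) := by
  classical
  have hd := hC.hd
  have hm := hC.hm
  have hn := hC.hn
  obtain ⟨w, hw⟩ : ∃ w, w = c - ∑ j ∈ J, a j • toO (cyc j) := ⟨_, rfl⟩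
  have hwr : RelO m κ w := by
    rw [hw]
    exact relO_sub hC.hcr (relO_sum J _ fun i => relO_smul (relO_cast (hC.cycr i)) _)
  have hwp : ∀ p, w p = c p - ∑ j ∈ J, a j * (cyc j p : Ω) := by
    intro p
    rw [hw, Finsupp.sub_apply, Finset.sum_apply']
    simp [Finsupp.smul_apply, toO_apply]
  have hcase : ∀ p, w p ≠ 0 → c p ≠ 0 ∨ ∃ j ∈ J, cyc j p ≠ 0 := by
    intro p h
    by_contra hcon
    push Not at hcon
    apply h
    rw [hwp, hcon.1, Finset.sum_eq_zero fun j hj => by rw [hcon.2 j hj, Int.cast_zero, mul_zero],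
      sub_zero]
  have hw0 : ∀ p, w p ≠ 0 → p ∈ GamO c cyc ∧ p 0 = 1 ∧ κ p ≠ 0 := by
    intro p h
    rcases hcase p h with h1 | ⟨j, -, h1⟩
    · exact conf_c0 hC p h1
    · exact conf_cy0 hC j p h1
  have hon : ∀ p, w p ≠ 0 → ∃ j ∈ J, on j p := by
    intro p h
    rcases hcase p h with h1 | ⟨j, hj, h1⟩
    · exact hcov p h1
    · exact ⟨j, hj, (hC.cyc0 j p h1).2.2⟩
  have hempty : ∀ j ∈ J, only J on w j = ∅ := by
    intro j hj
    by_contra hne
    have honj := on_only hon j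
    have h1 := prj_card_only hA3 hn hd hm hp hinj he hwr hw0 hj honj
      (Finset.nonempty_iff_ne_empty.2 hne)
    have h2 := hII j hj (only J on w j) fun p h => by
      have h3 := honj p h
      rw [mem_only] at h
      refine ⟨(hw0 p h.1).1, h3, h.2, fun h4 => ?_⟩
      apply h.1
      rw [hwp, h4, Finset.sum_eq_single_of_mem j hj, sub_self]
      intro i hi hij
      have h5 : cyc i p = 0 := by
        by_contra h5
        exact h.2 i hi hij (hC.cyc0 i p h5).2.2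
      rw [h5, Int.cast_zero, mul_zero]
    omega
  have hw1 : w = 0 := by
    by_contra hwne
    obtain ⟨J', hJ', hcov', hmin'⟩ := exists_min J w hon
    obtain ⟨p1, hp1⟩ := Finsupp.support_nonempty_iff.2 hwne
    obtain ⟨j, hj, -⟩ := hcov' p1 (Finsupp.mem_support_iff.1 hp1)
    obtain ⟨p0, hp0, hp0'⟩ := hmin' j hj
    have he' : ∑ i ∈ J', g i ≤ ∑ i ∈ J, g i := Finset.sum_le_sum_of_subset hJ'
    have h1 := prj_card_only hA3 hn hd hm hp hinj (he'.trans he) hwr hw0 hj (on_only hcov' j)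
      ⟨p0, mem_only.2 ⟨hp0, hp0'⟩⟩
    have hjJ := hJ' hj
    -- the points are on another curve
    have hcard : (only J' on w j).card ≤ ∑ i ∈ J.erase j, g j * g i := by
      have h2 : only J' on w j ⊆ (J.erase j).biUnion fun i => w.support.filter fun p =>
          on j p ∧ on i p := by
        intro p hpp
        have h3 := on_only hcov' j p hpp
        rw [mem_only] at hpp
        have h4 : p ∉ only J on w j := by
          rw [hempty j hjJ]
          exact Finset.notMem_empty _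
        rw [mem_only] at h4
        push Not at h4
        obtain ⟨i, hi, hij, hi'⟩ := h4 hpp.1
        rw [Finset.mem_biUnion]
        exact ⟨i, Finset.mem_erase.2 ⟨hij, hi⟩, Finset.mem_filter.2
          ⟨Finsupp.mem_support_iff.2 hpp.1, h3, hi'⟩⟩
      refine (Finset.card_le_card h2).trans (Finset.card_biUnion_le.trans ?_)
      refine Finset.sum_le_sum fun i hi => ?_
      rw [Finset.mem_erase] at hi
      refine card_two hBEZ hp hinj (Ne.symm hi.1) _ fun p h => ?_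
      rw [Finset.mem_filter, Finsupp.mem_support_iff] at h
      exact ⟨(hw0 p h.1).1, h.2.1, h.2.2⟩
    rw [← Finset.mul_sum] at hcard
    have h5 : ∑ i ∈ J.erase j, g i + g j = ∑ i ∈ J, g i := by
      rw [add_comm, Finset.add_sum_erase J g hjJ]
    have hgj : 1 ≤ g j := by
      rw [← hp.deg]
      exact one_le_td (hp.irr j)
    have h6 : g j * d ≤ g j * (∑ i ∈ J.erase j, g i + (n - 1 + ∑ i ∈ J', g i)) := by
      rw [mul_add]
      omega
    have h7 := Nat.le_of_mul_le_mul_left h6 hgj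
    omega
  rw [hw] at hw1
  exact sub_eq_zero.1 hw1


open Classical in
/-- the curves, the coefficients and the projection -/
theorem coreO (hA2 : StA2) (hSP : StSP) (hA3 : StA3) (hBEZ : StBEZ) [IsAlgClosed Ω] [CharZero Ω]
    (hC : ConfO r κ m N d c g on cyc A)
    (hab : (c.support.image c).card ≤ 2) (h3 : 3 * (N + n - 1) < d) :
    ∃ (J : Finset (Fin r)) (a : Fin r → Ω), ∑ i ∈ J, g i ≤ N ∧
      (∀ j ∈ J, ∃ p, c p ≠ 0 ∧ ∀ i ∈ J, i ≠ j → ¬ on i p) ∧ c = ∑ j ∈ J, a j • toO (cyc j) := by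
  classical
  obtain ⟨t, G, hp, hinj⟩ := exists_prj hC
  obtain ⟨I, hIN, hI⟩ := stepI hA2 hSP hC hp hinj
  obtain ⟨J, hJ, hcov, hmin⟩ := exists_min I c hI
  have he : ∑ i ∈ J, g i ≤ N := (Finset.sum_le_sum_of_subset hJ).trans hIN
  have h1 : ∀ j, ∃ a : Ω, j ∈ J → ∀ B : Finset (Fin (n + 2) → Ω), (∀ p ∈ B, p ∈ GamO c cyc ∧
      on j p ∧ (∀ i ∈ J, i ≠ j → ¬ on i p) ∧ c p ≠ a * (cyc j p : Ω)) →
      B.card + g j * (n - 1 + ∑ i ∈ J, g i) < g j * d := by
    intro j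
    by_cases hj : j ∈ J
    · obtain ⟨a, ha⟩ := stepIIa hA3 hC hp hinj he hcov hab h3 j hj (hmin j hj)
      exact ⟨a, fun _ => ha⟩
    · exact ⟨0, fun h => absurd h hj⟩
  choose a ha using h1
  exact ⟨J, a, he, hmin, stepIII hA3 hBEZ hC hp hinj he hcov a ha⟩

end

/-- **HO/MAINO.** -/
theorem maino_ (hA2 : Pool.Agent.N162.CW.StA2) (hSP : Pool.Agent.N162.HN.StSP)
    (hA3 : Pool.Agent.N162.CV.StA3) (hBEZ : Pool.Agent.N162.CV.StBEZ) :
    Pool.Agent.N162.HN.StMAINO := by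
  classical
  intro n r Ω _ _ _ κ m N d c g on cyc A hC h3 hab
  obtain ⟨x, y, hxy⟩ := hab
  have hcard : (c.support.image c).card ≤ 2 := by
    have h1 : c.support.image c ⊆ {x, y} := by
      intro z hz
      rw [Finset.mem_image] at hz
      obtain ⟨p, hp, rfl⟩ := hz
      rw [Finsupp.mem_support_iff] at hp
      rw [Finset.mem_insert, Finset.mem_singleton]
      exact (hxy p).resolve_left hp
    exact (Finset.card_le_card h1).trans Finset.card_le_two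
  obtain ⟨J, a, he, hmin, h⟩ := coreO hA2 hSP hA3 hBEZ hC hcard h3
  have hcp : ∀ p, c p = ∑ j ∈ J, a j * (cyc j p : Ω) := by
    intro p
    conv_lhs => rw [h]
    rw [Finset.sum_apply']
    simp [Finsupp.smul_apply, toO_apply]
  refine ⟨J, a, he, hcp, fun j hj => ?_⟩
  obtain ⟨p, hp, hp'⟩ := hmin j hj
  refine ⟨p, hp, ?_⟩
  rw [hcp p]
  refine Finset.sum_eq_single_of_mem j hj fun i hi hij => ?_
  have h5 : cyc i p = 0 := by
    by_contra h5
    exact hp' i hi hij (hC.cyc0 i p h5).2.2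
  rw [h5, Int.cast_zero, mul_zero]

end Pool.Agent.N163.HO
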